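import Pool.Agent.Helper73.KT.Ops

/-!
B4: the subspaces `pairs`.
-/

set_option autoImplicit false

open Matrix H77MT Pool.Agent.Helper79.KN Pool.Agent.Helper33.KN

namespace Pool.Agent.Helper73.KT

variable {X n K ι : Type} [Fintype n] [DecidableEq n] [Field K] [Fintype ι] [DecidableEq ι]

/-- `M` is the product of the pairing of the factors `a` and `b` and a tensor on the other factors. -/
def Pr42 (a b : ι) (M : (ι → n) → K) : Prop :=
  (∀ s : ι → n, s a ≠ s b → M s = 0) ∧
    ∀ (s : ι → n) (d : n), s a = s b → M (Function.update (Function.update s a d) b d) = M s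

omit [Fintype ι] in
theorem upd_other42 {a b c : ι} (s : ι → n) (d : n) (ha : c ≠ a) (hb : c ≠ b) :
    Function.update (Function.update s a d) b d c = s c := by
  rw [Function.update_of_ne hb, Function.update_of_ne ha]

omit [Fintype ι] in
theorem upd_left42 {a b : ι} (s : ι → n) (d : n) (hab : a ≠ b) :
    Function.update (Function.update s a d) b d a = d := by
  rw [Function.update_of_ne hab, Function.update_self]

omit [Fintype ι] in
theorem upd_right42 {a b : ι} (s : ι → n) (d : n) :
    Function.update (Function.update s a d) b d b = d := by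
  rw [Function.update_self]

omit [Fintype n] [Fintype ι] in
theorem pr_of_gen42 {q : ℕ} {f g : Fin q → ι} (hfg : Function.Injective (Sum.elim f g)) {M N : (ι → n) → K}
    (hN : ∀ s t, (∀ a, (∀ j, a ≠ f j ∧ a ≠ g j) → s a = t a) → N s = N t)
    (hM : ∀ s, M s = if ∀ j, s (f j) = s (g j) then N s else 0) (j : Fin q) : Pr42 (f j) (g j) M := by
  have hff : ∀ k, k ≠ j → f k ≠ f j := fun k hk h => hk (Sum.inl_injective (hfg (a₁ := .inl k) (a₂ := .inl j) h))
  have hgg : ∀ k, k ≠ j → g k ≠ g j := fun k hk h => hk (Sum.inr_injective (hfg (a₁ := .inr k) (a₂ := .inr j) h))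
  have hfg' : ∀ k l, f k ≠ g l := fun k l h => Sum.inl_ne_inr (hfg (a₁ := .inl k) (a₂ := .inr l) h)
  refine ⟨fun s hs => ?_, fun s d hs => ?_⟩
  · rw [hM, if_neg fun h => hs (h j)]
  · rw [hM, hM]
    have h1 : (∀ k, Function.update (Function.update s (f j) d) (g j) d (f k) =
        Function.update (Function.update s (f j) d) (g j) d (g k)) ↔ ∀ k, s (f k) = s (g k) := by
      refine forall_congr' fun k => ?_
      rcases eq_or_ne k j with rfl | hk
      · rw [Function.update_of_ne (hfg' k k), Function.update_self, Function.update_self]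
        exact ⟨fun _ => hs, fun _ => rfl⟩
      · rw [Function.update_of_ne (hfg' k j), Function.update_of_ne (hff k hk), Function.update_of_ne (hgg k hk),
          Function.update_of_ne (fun h => hfg' j k h.symm)]
    have h2 : N (Function.update (Function.update s (f j) d) (g j) d) = N s := by
      refine hN _ _ fun a ha => ?_
      rw [Function.update_of_ne (ha j).2, Function.update_of_ne (ha j).1]
    simp only [h1, h2]

omit [Fintype n] [Fintype ι] in
theorem gen_of_pr42 {q : ℕ} {f g : Fin q → ι} (hfg : Function.Injective (Sum.elim f g)) {M : (ι → n) → K}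
    (h : ∀ j, Pr42 (f j) (g j) M) : ∃ N : (ι → n) → K,
      (∀ s t, (∀ a, (∀ j, a ≠ f j ∧ a ≠ g j) → s a = t a) → N s = N t) ∧
      ∀ s, M s = if ∀ j, s (f j) = s (g j) then N s else 0 := by
  classical
  rcases isEmpty_or_nonempty n with hn | hn
  · refine ⟨M, fun s t _ => congrArg M (funext fun a => (hn.false (s a)).elim), fun s => ?_⟩
    rw [if_pos fun j => (hn.false (s (f j))).elim]
  have hff : ∀ k j, k ≠ j → f k ≠ f j := fun k j hk h => hk (Sum.inl_injective (hfg (a₁ := .inl k) (a₂ := .inl j) h))
  have hgg : ∀ k j, k ≠ j → g k ≠ g j := fun k j hk h => hk (Sum.inr_injective (hfg (a₁ := .inr k) (a₂ := .inr j) h))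
  have hfg' : ∀ k l, f k ≠ g l := fun k l h => Sum.inl_ne_inr (hfg (a₁ := .inl k) (a₂ := .inr l) h)
  obtain ⟨d⟩ := hn
  set r : Finset (Fin q) → (ι → n) → ι → n := fun T s a => if ∃ j ∈ T, a = f j ∨ a = g j then d else s a with hr
  have key : ∀ (T : Finset (Fin q)) (s : ι → n), (∀ j, s (f j) = s (g j)) → M (r T s) = M s := by
    intro T
    induction T using Finset.induction_on with
    | empty =>
      intro s _
      congr 1
      funext a
      simp [hr]
    | insert j T hj ih =>
      intro s hs
      rw [← ih s hs]
      have h1 : r (insert j T) s = Function.update (Function.update (r T s) (f j) d) (g j) d := by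
        funext a
        rcases eq_or_ne a (g j) with rfl | h2
        · rw [Function.update_self]
          simp [hr]
        rcases eq_or_ne a (f j) with rfl | h3
        · rw [Function.update_of_ne h2, Function.update_self]
          simp [hr]
        · rw [Function.update_of_ne h2, Function.update_of_ne h3]
          simp only [hr, Finset.mem_insert]
          refine if_congr ⟨?_, ?_⟩ rfl rfl
          · rintro ⟨k, rfl | hk, h4⟩
            · rcases h4 with h4 | h4
              · exact absurd h4 h3
              · exact absurd h4 h2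
            · exact ⟨k, hk, h4⟩
          · rintro ⟨k, hk, h4⟩
            exact ⟨k, Or.inr hk, h4⟩
      rw [h1]
      refine (h j).2 _ d ?_
      have h2 : ¬ ∃ k ∈ T, f j = f k ∨ f j = g k := by
        rintro ⟨k, hk, h4 | h4⟩
        · rcases eq_or_ne j k with rfl | h5
          · exact hj hk
          · exact hff j k h5 h4
        · exact hfg' j k h4
      have h3 : ¬ ∃ k ∈ T, g j = f k ∨ g j = g k := by
        rintro ⟨k, hk, h4 | h4⟩
        · exact hfg' k j h4.symm
        · rcases eq_or_ne j k with rfl | h5
          · exact hj hk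
          · exact hgg j k h5 h4
      simp only [hr, if_neg h2, if_neg h3]
      exact hs j
  refine ⟨fun s => M (r Finset.univ s), fun s t hst => congrArg M ?_, fun s => ?_⟩
  · funext a
    simp only [hr]
    by_cases ha : ∃ j ∈ (Finset.univ : Finset (Fin q)), a = f j ∨ a = g j
    · rw [if_pos ha, if_pos ha]
    · rw [if_neg ha, if_neg ha]
      refine hst a fun j => ⟨fun h1 => ha ⟨j, Finset.mem_univ j, Or.inl h1⟩, fun h1 => ha ⟨j, Finset.mem_univ j, Or.inr h1⟩⟩
  · by_cases hs : ∀ j, s (f j) = s (g j)
    · rw [if_pos hs]
      exact (key Finset.univ s hs).symm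
    · rw [if_neg hs]
      push Not at hs
      obtain ⟨j, hj⟩ := hs
      exact (h j).1 s hj

omit [Fintype n] [Fintype ι] in
theorem mem_of_pr42 {i : ι → X × Bool} {q : ℕ} {f g : Fin q → ι} (hfg : Function.Injective (Sum.elim f g))
    (hi : ∀ j, i (g j) = ((i (f j)).1, !(i (f j)).2)) {M : (ι → n) → K} (h : ∀ j, Pr42 (f j) (g j) M) :
    M ∈ pairs K n i q :=
  Submodule.subset_span ⟨f, g, hfg, hi, gen_of_pr42 hfg h⟩

omit [Fintype n] [Fintype ι] in
/-- an operator which preserves the products with each pairing preserves `pairs` -/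
theorem pairs_map42 {i : ι → X × Bool} {q : ℕ} (L : ((ι → n) → K) →ₗ[K] ((ι → n) → K))
    (hL : ∀ a b, a ≠ b → i b = ((i a).1, !(i a).2) → ∀ M, Pr42 a b M → Pr42 a b (L M)) :
    ∀ M ∈ pairs K n i q, L M ∈ pairs K n i q := by
  intro M hM
  have h1 : pairs K n i q ≤ (pairs K n i q).comap L := by
    refine Submodule.span_le.2 ?_
    rintro M ⟨f, g, hfg, hi, N, hN, hM⟩
    exact mem_of_pr42 hfg hi fun j => hL _ _ (fun h => Sum.inl_ne_inr (hfg (a₁ := .inl j) (a₂ := .inr j) h)) (hi j) _
      (pr_of_gen42 hfg hN hM j)
  exact h1 hM

omit [Fintype n] [Fintype ι] in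
theorem pairs_zero (i : ι → X × Bool) (M : (ι → n) → K) : M ∈ pairs K n i 0 :=
  mem_of_pr42 (f := Fin.elim0) (g := Fin.elim0) (fun x => by rcases x with x | x <;> exact x.elim0) (fun j => j.elim0)
    fun j => j.elim0

theorem pairs_lie [DecidableEq X] (i : ι → X × Bool) (q : ℕ) (x : X) (c d : n) :
    ∀ M ∈ pairs K n i q, lie i x c d M ∈ pairs K n i q := by
  refine pairs_map42 _ fun a b hab hi M hM => ?_
  -- one term
  set T : ι → (ι → n) → K := fun e s => if (i e).1 = x then
    (if (i e).2 then (if s e = c then M (Function.update s e d) else 0)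
      else (if s e = d then -M (Function.update s e c) else 0)) else 0 with hT
  have h0 : ∀ s, lie i x c d M s = ∑ e, T e s := fun s => rfl
  have hz : ∀ s, T a s + T b s = 0 := by
    intro s
    have hx : (i b).1 = (i a).1 := by rw [hi]
    have hy : (i b).2 = !(i a).2 := by rw [hi]
    simp only [hT, hx, hy]
    by_cases h1 : (i a).1 = x
    swap
    · simp [h1]
    simp only [h1, if_true]
    have e1 : ∀ u v : n, s a = u → M (Function.update s a v) = if s b = v then M (Function.update (Function.update s a v) b v) else 0 := by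
      intro u v _
      by_cases h2 : s b = v
      · rw [if_pos h2]
        congr 1
        funext e
        rcases eq_or_ne e b with rfl | h3
        · rw [Function.update_self, Function.update_of_ne hab.symm, h2]
        · rw [Function.update_of_ne h3]
      · rw [if_neg h2]
        refine hM.1 _ ?_
        rw [Function.update_self, Function.update_of_ne hab.symm]
        exact fun h => h2 h.symm
    have e2 : ∀ u v : n, s b = u → M (Function.update s b v) = if s a = v then M (Function.update (Function.update s a v) b v) else 0 := by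
      intro u v _
      by_cases h2 : s a = v
      · rw [if_pos h2]
        congr 1
        rw [← h2, Function.update_eq_self]
      · rw [if_neg h2]
        refine hM.1 _ ?_
        rw [Function.update_self, Function.update_of_ne hab]
        exact h2
    have e3 : ∀ u v : n, M (Function.update (Function.update s a u) b u) = M (Function.update (Function.update s a v) b v) := by
      intro u v
      have h2 := hM.2 (Function.update (Function.update s a v) b v) u (by rw [upd_left42 s v hab, upd_right42])
      rw [← h2]
      congr 1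
      funext e
      rcases eq_or_ne e b with rfl | h3
      · rw [Function.update_self, Function.update_self]
      rcases eq_or_ne e a with rfl | h4
      · rw [Function.update_of_ne h3, Function.update_self, Function.update_of_ne h3, Function.update_self]
      · rw [upd_other42 _ _ h4 h3, upd_other42 _ _ h4 h3, upd_other42 _ _ h4 h3]
    by_cases h2 : (i a).2 = true
    · rw [h2]
      simp only [if_true, Bool.not_true, Bool.false_eq_true, if_false]
      rw [e1 (s a) d rfl, e2 (s b) c rfl, e3 d c]
      by_cases h3 : s a = c <;> by_cases h4 : s b = d <;> simp [h3, h4]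
    · have h2' : (i a).2 = false := by simpa using h2
      rw [h2']
      simp only [Bool.false_eq_true, if_false, Bool.not_false, if_true]
      rw [e1 (s a) c rfl, e2 (s b) d rfl, e3 d c]
      by_cases h3 : s a = d <;> by_cases h4 : s b = c <;> simp [h3, h4]
  have h1 : ∀ s, lie i x c d M s = ∑ e ∈ (Finset.univ.erase b).erase a, T e s := by
    intro s
    rw [h0, ← Finset.add_sum_erase _ _ (Finset.mem_univ b),
      ← Finset.add_sum_erase _ _ (Finset.mem_erase.2 ⟨hab, Finset.mem_univ a⟩), ← add_assoc, add_comm (T b s), hz, zero_add]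
  refine ⟨fun s hs => ?_, fun s e hs => ?_⟩
  · rw [h1]
    refine Finset.sum_eq_zero fun e he => ?_
    rw [Finset.mem_erase, Finset.mem_erase] at he
    have h2 : ∀ u, M (Function.update s e u) = 0 := fun u => hM.1 _ (by
      rw [Function.update_of_ne (Ne.symm he.1), Function.update_of_ne (Ne.symm he.2.1)]
      exact hs)
    simp [hT, h2]
  · rw [h1, h1]
    refine Finset.sum_congr rfl fun k hk => ?_
    rw [Finset.mem_erase, Finset.mem_erase] at hk
    have h2 : ∀ u, M (Function.update (Function.update (Function.update s a e) b e) k u) = M (Function.update s k u) := by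
      intro u
      have h3 := hM.2 (Function.update s k u) e (by
        rw [Function.update_of_ne (Ne.symm hk.1), Function.update_of_ne (Ne.symm hk.2.1)]
        exact hs)
      rw [← h3]
      congr 1
      rw [Function.update_comm (Ne.symm hk.2.1), Function.update_comm (Ne.symm hk.1)]
    simp only [hT, h2, upd_other42 s e hk.1 hk.2.1]

omit [Fintype n] [Fintype ι] in
theorem pairs_sw (i : ι → X × Bool) (q : ℕ) (a b : ι) (h : i a = i b) :
    ∀ M ∈ pairs K n i q, sw a b M ∈ pairs K n i q := by
  intro M hM
  have h1 : pairs K n i q ≤ (pairs K n i q).comap (sw a b) := by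
    refine Submodule.span_le.2 ?_
    rintro M ⟨f, g, hfg, hi, N, hN, hM⟩
    have hsw : ∀ e, i (Equiv.swap a b e) = i e := by
      intro e
      rcases eq_or_ne e a with rfl | h2
      · rw [Equiv.swap_apply_left, h]
      rcases eq_or_ne e b with rfl | h3
      · rw [Equiv.swap_apply_right, h]
      · rw [Equiv.swap_apply_of_ne_of_ne h2 h3]
    refine Submodule.subset_span ⟨fun j => Equiv.swap a b (f j), fun j => Equiv.swap a b (g j), ?_, fun j => ?_,
      fun s => N (s ∘ Equiv.swap a b), fun s t hst => hN _ _ fun e he => ?_, fun s => hM _⟩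
    · have h2 : Sum.elim (fun j => Equiv.swap a b (f j)) (fun j => Equiv.swap a b (g j)) = Equiv.swap a b ∘ Sum.elim f g := by
        funext y
        rcases y with y | y <;> rfl
      rw [h2]
      exact (Equiv.injective _).comp hfg
    · rw [hsw, hsw, hi]
    · refine hst _ fun j => ⟨fun h2 => (he j).1 ?_, fun h2 => (he j).2 ?_⟩
      · exact (Equiv.injective _) h2
      · exact (Equiv.injective _) h2
  exact h1 hM

omit [Fintype ι] in
theorem con_mem (i : ι → X × Bool) {a b : ι} (hab : a ≠ b) (h : i b = ((i a).1, !(i a).2)) (M : (ι → n) → K) :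
    con a b M ∈ pairs K n i 1 := by
  refine mem_of_pr42 (f := fun _ => a) (g := fun _ => b) ?_ (fun _ => h) fun _ => ⟨fun s hs => ?_, fun s d hs => ?_⟩
  · rintro (x | x) (y | y) hxy
    · rw [Subsingleton.elim x y]
    · exact absurd hxy hab
    · exact absurd hxy hab.symm
    · rw [Subsingleton.elim x y]
  · exact if_neg hs
  · have h1 : con a b M (Function.update (Function.update s a d) b d) =
        ∑ e, M (Function.update (Function.update (Function.update (Function.update s a d) b d) a e) b e) := by
      refine if_pos ?_
      rw [upd_left42 s d hab, upd_right42]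
    have h2 : con a b M s = ∑ e, M (Function.update (Function.update s a e) b e) := if_pos hs
    rw [h1, h2]
    refine Finset.sum_congr rfl fun e _ => congrArg M (funext fun k => ?_)
    rcases eq_or_ne k b with rfl | h3
    · rw [Function.update_self, Function.update_self]
    rcases eq_or_ne k a with rfl | h4
    · rw [upd_left42 _ _ hab, upd_left42 _ _ hab]
    · rw [upd_other42 _ _ h4 h3, upd_other42 _ _ h4 h3, upd_other42 _ _ h4 h3]

omit [Fintype n] [Fintype ι] in
theorem pairs_le_one (i : ι → X × Bool) (q : ℕ) : pairs K n i (q + 1) ≤ pairs K n i 1 := by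
  refine Submodule.span_le.2 ?_
  rintro M ⟨f, g, hfg, hi, N, hN, hM⟩
  refine mem_of_pr42 (f := fun _ => f 0) (g := fun _ => g 0) ?_ (fun _ => hi 0) fun _ => pr_of_gen42 hfg hN hM 0
  have h1 : f 0 ≠ g 0 := fun h => Sum.inl_ne_inr (hfg (a₁ := .inl 0) (a₂ := .inr 0) h)
  rintro (x | x) (y | y) hxy
  · rw [Subsingleton.elim x y]
  · exact absurd hxy h1
  · exact absurd hxy h1.symm
  · rw [Subsingleton.elim x y]

/-- the operator `B` on the factor `a` -/
def op42 (a : ι) (B : Matrix n n K) (M : (ι → n) → K) : (ι → n) → K := fun s => ∑ u, B (s a) u * M (Function.update s a u)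

theorem ten_op42 (A : ι → Matrix n n K) (a : ι) (M : (ι → n) → K) :
    ten A M = op42 a (A a) (ten (Function.update A a 1) M) := by
  funext s
  simp only [ten, op42, Finset.mul_sum]
  rw [Finset.sum_comm]
  refine Finset.sum_congr rfl fun t _ => ?_
  have h1 : ∀ u : n, A a (s a) u * ((∏ e, Function.update A a 1 e (Function.update s a u e) (t e)) * M t) =
      if u = t a then A a (s a) (t a) * ((∏ e ∈ Finset.univ.erase a, A e (s e) (t e)) * M t) else 0 := by
    intro u
    rw [← Finset.mul_prod_erase _ _ (Finset.mem_univ a)]
    rw [Function.update_self, Function.update_self, Matrix.one_apply]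
    have h2 : ∏ e ∈ Finset.univ.erase a, Function.update A a 1 e (Function.update s a u e) (t e) =
        ∏ e ∈ Finset.univ.erase a, A e (s e) (t e) := by
      refine Finset.prod_congr rfl fun e he => ?_
      have h3 := Finset.ne_of_mem_erase he
      rw [Function.update_of_ne h3, Function.update_of_ne h3]
    rw [h2]
    by_cases h3 : u = t a
    · rw [if_pos h3, if_pos h3, h3, one_mul]
    · rw [if_neg h3, if_neg h3]
      ring
  rw [Finset.sum_congr rfl fun u _ => h1 u, Finset.sum_ite_eq' Finset.univ (t a), if_pos (Finset.mem_univ _),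
    ← Finset.mul_prod_erase _ _ (Finset.mem_univ a), mul_assoc]

theorem pr_ten_one42 {a b : ι} (hab : a ≠ b) {A : ι → Matrix n n K} (ha : A a = 1) (hb : A b = 1) {M : (ι → n) → K}
    (hM : Pr42 a b M) : Pr42 a b (ten A M) := by
  classical
  refine ⟨fun s hs => Finset.sum_eq_zero fun t _ => ?_, fun s d hs => ?_⟩
  · by_cases h1 : s a = t a
    · by_cases h2 : s b = t b
      · rw [hM.1 t (by rw [← h1, ← h2]; exact hs), mul_zero]
      · rw [Finset.prod_eq_zero (Finset.mem_univ b) (by rw [hb, Matrix.one_apply, if_neg h2]), zero_mul]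
    · rw [Finset.prod_eq_zero (Finset.mem_univ a) (by rw [ha, Matrix.one_apply, if_neg h1]), zero_mul]
  · -- the involution
    obtain ⟨e, he⟩ : ∃ e : n, e = s a := ⟨_, rfl⟩
    have hse : s b = e := by rw [← hs, he]
    let σ : (ι → n) → (ι → n) := fun t c => if c = a ∨ c = b then Equiv.swap d e (t c) else t c
    have hσ : Function.Involutive σ := by
      intro t
      funext c
      by_cases h1 : c = a ∨ c = b
      · simp only [σ, if_pos h1, Equiv.swap_apply_self]
      · simp only [σ, if_neg h1]
    have hMσ : ∀ t, M (σ t) = M t := by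
      intro t
      have h1 : σ t a = Equiv.swap d e (t a) := if_pos (Or.inl rfl)
      have h2 : σ t b = Equiv.swap d e (t b) := if_pos (Or.inr rfl)
      by_cases h3 : t a = t b
      · have h4 := hM.2 t (Equiv.swap d e (t a)) h3
        rw [← h4]
        congr 1
        funext c
        rcases eq_or_ne c b with rfl | h5
        · rw [h2, Function.update_self, h3]
        rcases eq_or_ne c a with rfl | h6
        · rw [h1, Function.update_of_ne h5, Function.update_self]
        · rw [upd_other42 _ _ h6 h5]
          exact if_neg (by rintro (h | h) <;> contradiction)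
      · rw [hM.1 t h3, hM.1 (σ t) (by
          rw [h1, h2]
          exact fun h => h3 ((Equiv.injective _) h))]
    unfold ten
    rw [← Equiv.sum_comp (Function.Involutive.toPerm σ hσ)]
    refine Finset.sum_congr rfl fun t _ => ?_
    have h0 : (Function.Involutive.toPerm σ hσ) t = σ t := rfl
    rw [h0, hMσ t]
    congr 1
    refine Finset.prod_congr rfl fun c _ => ?_
    rcases eq_or_ne c b with rfl | h5
    · have h2 : σ t c = Equiv.swap d e (t c) := if_pos (Or.inr rfl)
      rw [Function.update_self, h2, hb, Matrix.one_apply, Matrix.one_apply, hse]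
      refine if_congr ?_ rfl rfl
      rw [eq_comm, Equiv.swap_apply_eq_iff, Equiv.swap_apply_left, eq_comm]
    rcases eq_or_ne c a with rfl | h6
    · have h2 : σ t c = Equiv.swap d e (t c) := if_pos (Or.inl rfl)
      rw [Function.update_of_ne h5, Function.update_self, h2, ha, Matrix.one_apply, Matrix.one_apply, ← he]
      refine if_congr ?_ rfl rfl
      rw [eq_comm, Equiv.swap_apply_eq_iff, Equiv.swap_apply_left, eq_comm]
    · have h2 : σ t c = t c := if_neg (by rintro (h | h) <;> contradiction)
      rw [upd_other42 _ _ h6 h5, h2]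

/-- stable under base changes which preserve the pairings -/
theorem pairs_ten (i : ι → X × Bool) (q : ℕ) (A : ι → Matrix n n K)
    (hA : ∀ a b, i b = ((i a).1, !(i a).2) → A a * (A b)ᵀ = 1) : ∀ M ∈ pairs K n i q, ten A M ∈ pairs K n i q := by
  refine pairs_map42 (tenL A) fun a b hab hi M hM => ?_
  have h0 : tenL A M = ten A M := rfl
  have h1 : ten A M = op42 a (A a) (op42 b (A b) (ten (Function.update (Function.update A a 1) b 1) M)) := by
    rw [ten_op42 A a, ten_op42 (Function.update A a 1) b, Function.update_of_ne hab.symm]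
  obtain ⟨M', hM'⟩ : ∃ M', M' = ten (Function.update (Function.update A a 1) b 1) M := ⟨_, rfl⟩
  have h2 : Pr42 a b M' := by
    rw [hM']
    refine pr_ten_one42 hab ?_ ?_ hM
    · rw [Function.update_of_ne hab, Function.update_self]
    · rw [Function.update_self]
  have h3 : ten A M = M' := by
    rw [h1, ← hM']
    funext s
    have h4 : ∀ u v : n, M' (Function.update (Function.update s a u) b v) =
        if u = v then M' (Function.update (Function.update s a (s b)) b (s b)) else 0 := by
      intro u v
      by_cases h5 : u = v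
      · rw [if_pos h5, ← h5]
        have h6 := h2.2 (Function.update (Function.update s a (s b)) b (s b)) u (by rw [upd_left42 _ _ hab, upd_right42])
        rw [← h6]
        congr 1
        funext e
        rcases eq_or_ne e b with rfl | h7
        · rw [Function.update_self, Function.update_self]
        rcases eq_or_ne e a with rfl | h8
        · rw [upd_left42 _ _ hab, upd_left42 _ _ hab]
        · rw [upd_other42 _ _ h8 h7, upd_other42 _ _ h8 h7, upd_other42 _ _ h8 h7]
      · rw [if_neg h5]
        refine h2.1 _ ?_
        rw [Function.update_of_ne hab, Function.update_self, Function.update_self]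
        exact h5
    have h5 : op42 a (A a) (op42 b (A b) M') s = (A a * (A b)ᵀ) (s a) (s b) *
        M' (Function.update (Function.update s a (s b)) b (s b)) := by
      generalize M' (Function.update (Function.update s a (s b)) b (s b)) = M0 at h4
      have h7 : ∀ u, op42 b (A b) M' (Function.update s a u) = A b (s b) u * M0 := by
        intro u
        have h8 : op42 b (A b) M' (Function.update s a u) = ∑ v, A b (s b) v * M' (Function.update (Function.update s a u) b v) := by
          refine Finset.sum_congr rfl fun v _ => ?_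
          rw [Function.update_of_ne hab.symm]
        rw [h8, Finset.sum_eq_single u]
        · rw [h4, if_pos rfl]
        · intro v _ hv
          rw [h4, if_neg (Ne.symm hv), mul_zero]
        · intro h
          exact absurd (Finset.mem_univ _) h
      rw [Matrix.mul_apply, Finset.sum_mul]
      refine Finset.sum_congr rfl fun u _ => ?_
      rw [h7, Matrix.transpose_apply, mul_assoc]
    rw [h5, hA a b hi, Matrix.one_apply]
    by_cases h6 : s a = s b
    · rw [if_pos h6, one_mul, ← h6, Function.update_eq_self, h6, Function.update_eq_self]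
    · rw [if_neg h6, zero_mul, h2.1 s h6]
  rw [h0, h3]
  exact h2

omit [Fintype ι] in
theorem con_of_pr42 {a b : ι} {M : (ι → n) → K} (hM : Pr42 a b M) : con a b M = (Fintype.card n : K) • M := by
  funext s
  by_cases h1 : s a = s b
  · have h2 : con a b M s = ∑ d, M (Function.update (Function.update s a d) b d) := if_pos h1
    rw [h2, Finset.sum_congr rfl fun d _ => hM.2 s d h1, Finset.sum_const, Finset.card_univ, Pi.smul_apply, nsmul_eq_mul,
      smul_eq_mul]
  · have h2 : con a b M s = 0 := if_neg h1
    rw [h2, Pi.smul_apply, hM.1 s h1, smul_zero]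

/-- elements of `pairs K n i 1` are sums of `con a b (M a b)` -/
theorem pairs_one_eq [DecidableEq X] [CharZero K] [Nonempty n] {i : ι → X × Bool} {M : (ι → n) → K} (hM : M ∈ pairs K n i 1) :
    ∃ F : ι → ι → (ι → n) → K, M = ∑ a, ∑ b, if a ≠ b ∧ i b = ((i a).1, !(i a).2) then con a b (F a b) else 0 := by
  refine Submodule.span_induction (p := fun M _ => ∃ F : ι → ι → (ι → n) → K,
    M = ∑ a, ∑ b, if a ≠ b ∧ i b = ((i a).1, !(i a).2) then con a b (F a b) else 0) ?_ ?_ ?_ ?_ hM
  · rintro M ⟨f, g, hfg, hi, N, hN, hM⟩
    have h1 : f 0 ≠ g 0 := fun h => Sum.inl_ne_inr (hfg (a₁ := .inl 0) (a₂ := .inr 0) h)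
    have h2 := pr_of_gen42 hfg hN hM 0
    have h3 : (Fintype.card n : K) ≠ 0 := Nat.cast_ne_zero.2 Fintype.card_ne_zero
    refine ⟨fun a b => if a = f 0 ∧ b = g 0 then ((Fintype.card n : K)⁻¹) • M else 0, ?_⟩
    rw [Finset.sum_eq_single (f 0), Finset.sum_eq_single (g 0)]
    · dsimp only
      rw [if_pos ⟨h1, hi 0⟩, if_pos ⟨rfl, rfl⟩, map_smul, con_of_pr42 h2, smul_smul, inv_mul_cancel₀ h3, one_smul]
    · intro b _ hb
      dsimp only
      rw [if_neg (fun h : f 0 = f 0 ∧ b = g 0 => hb h.2), map_zero, ite_self]
    · intro h
      exact absurd (Finset.mem_univ _) h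
    · intro a _ ha
      refine Finset.sum_eq_zero fun b _ => ?_
      dsimp only
      rw [if_neg (fun h : a = f 0 ∧ b = g 0 => ha h.1), map_zero, ite_self]
    · intro h
      exact absurd (Finset.mem_univ _) h
  · exact ⟨0, by simp⟩
  · rintro M M' - - ⟨F, hF⟩ ⟨F', hF'⟩
    refine ⟨F + F', ?_⟩
    rw [hF, hF', ← Finset.sum_add_distrib]
    refine Finset.sum_congr rfl fun a _ => ?_
    rw [← Finset.sum_add_distrib]
    refine Finset.sum_congr rfl fun b _ => ?_
    split_ifs
    · rw [Pi.add_apply, Pi.add_apply, map_add]
    · rw [add_zero]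
  · rintro z M - ⟨F, hF⟩
    refine ⟨fun a b => z • F a b, ?_⟩
    rw [hF, Finset.smul_sum]
    refine Finset.sum_congr rfl fun a _ => ?_
    rw [Finset.smul_sum]
    refine Finset.sum_congr rfl fun b _ => ?_
    split_ifs
    · rw [map_smul]
    · rw [smul_zero]

end Pool.Agent.Helper73.KT
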